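import Pool.Agent.Lib.P65S.Final
import Pool.Agent.Lib.P65K.Circ

/-!
# MP_65a708_lc: minimum circuit size for depth-3 circuits with bottom fan-in `k` is NP-hard

Circuits OR-AND-OR with bottom fan-in `k` are ORs of `k`-CNFs; the size is the number of the
`k`-CNFs (the fan-in of the top gate), and the whole truth table is given. For every fixed
`k ≥ 2`, every language in NP/poly reduces to this problem by circuits of polynomial size that
consist of input gates, constants, NOT gates and one oracle gate (the last gate); the same holds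
for the dual circuits, ANDs of `k`-DNFs. A `k`-CNF is the same as an AND of arbitrary gates of
fan-in `k`.
-/

namespace Pool.Agent.Results.MP_65a708_lc.BottomFanIn

open P65 P65T P65S

/-- For every `k ≥ 2`, every language `L` in NP/poly has two families of circuits of polynomial
size that consist of input gates, constants, NOT gates and one final oracle gate, and decide `L`
if the oracle is the minimum circuit size problem for ORs of `k`-CNFs (for ANDs of `k`-DNFs). -/
theorem result (k : ℕ) (hk : 2 ≤ k) (L : Set (List Bool)) (hL : NPpoly L) :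
    ∃ d : ℕ, ∀ m, 1 ≤ m → ∃ (P P' : List Gate) (as as' : List ℕ),
      (∀ g ∈ P, g.IsProj) ∧ (∀ g ∈ P', g.IsProj) ∧
      csize (P ++ [Gate.orc as]) ≤ m ^ d + d ∧ csize (P' ++ [Gate.orc as']) ≤ m ^ d + d ∧
      ∀ x : List Bool, x.length = m →
        (outC (OrMCSP (fun _ g => IsCNF k g)) x (P ++ [Gate.orc as]) = true ↔ x ∈ L) ∧
        (outC (AndMCSP (fun _ g => IsDNF k g)) x (P' ++ [Gate.orc as']) = true ↔ x ∈ L) := by
  obtain ⟨i, rfl⟩ : ∃ i, k = i + 1 := ⟨k - 1, by omega⟩
  obtain ⟨d, hd⟩ := npPoly_projS i L hL
  refine ⟨4 * d + 4, fun m hm => ?_⟩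
  obtain ⟨W, W', hW, hW', hx⟩ := hd m hm
  refine ⟨buildG 0 W, buildG 0 W', orcW W, orcW W', buildG_isProj W 0, buildG_isProj W' 0,
    ?_, ?_, fun x hxm => ⟨?_, ?_⟩⟩
  · rw [csize_projC]
    exact three_mul_bound m d W.length hm hW
  · rw [csize_projC]
    exact three_mul_bound m d W'.length hm hW'
  · rw [outC_projC]
    exact (hx x hxm).1
  · rw [outC_projC]
    exact (hx x hxm).2

end Pool.Agent.Results.MP_65a708_lc.BottomFanIn
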