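import Pool.Agent.Lib.P65H.Final
import Pool.Agent.Lib.P65K.Circ

/-!
# MP_65a708_lc: minimum circuit size for ORs of Horn formulas is NP-hard, already for size 3

Circuits of depth 3 (OR of ANDs of clauses) whose bottom clauses are Horn clauses (at most one
positive literal) are ORs of Horn CNFs; the size is the number of Horn CNFs (the fan-in of the top
gate), and the whole truth table is given. For every fixed `c ≥ 3` it is NP-hard, under P/poly
reductions, to decide whether a function is an OR of at most `c` Horn CNFs: every language in
NP/poly reduces to this problem by circuits of polynomial size that consist of input gates,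
constants, NOT gates and one oracle gate (the last gate). The same circuits serve every class `H`
of bottom functions that contains the pure Horn functions and consists of linked functions, for
example Horn CNFs, or all functions that are Horn, dual Horn or unate (threshold gates are unate).
-/

namespace Pool.Agent.Results.MP_65a708_lc.HornUnion

open P65 P65T P65H

/-- For every `c ≥ 3`, every language `L` in NP/poly has two families of circuits of polynomial
size that consist of input gates, constants, NOT gates and one final oracle gate, and decide `L`
if the oracle is the set of truth tables of the ORs of at most `c` functions of the class `H`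
(the minimum circuit size problem `OrMCSP H`), for every class `H` that contains the pure Horn
CNFs and consists of linked functions. Horn CNFs, dual Horn CNFs and unate functions are linked. -/
theorem result :
    (∀ c : ℕ, 3 ≤ c → ∀ L : Set (List Bool), NPpoly L →
      ∃ d : ℕ, ∀ m, 1 ≤ m → ∃ (P P' : List Gate) (as as' : List ℕ),
        (∀ g ∈ P, g.IsProj) ∧ (∀ g ∈ P', g.IsProj) ∧
        csize (P ++ [Gate.orc as]) ≤ m ^ d + d ∧ csize (P' ++ [Gate.orc as']) ≤ m ^ d + d ∧
        ∀ H : ∀ n : ℕ, ((Fin n → Bool) → Bool) → Prop,
          (∀ n g, IsPureHorn g → H n g) → (∀ n g, H n g → IsLinked g) →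
          ∀ x : List Bool, x.length = m →
            (outC (OrSlice H c) x (P ++ [Gate.orc as]) = true ↔ x ∈ L) ∧
            (outC (OrMCSP H) x (P' ++ [Gate.orc as']) = true ↔ x ∈ L)) ∧
    (∀ (n : ℕ) (g : (Fin n → Bool) → Bool),
      (IsPureHorn g → IsHorn g) ∧ (IsHorn g → IsLinked g) ∧ (IsDualHorn g → IsLinked g) ∧
      (IsUnate g → IsLinked g)) := by
  refine ⟨fun c hc L hL => ?_, fun n g => ⟨pure_horn, horn_linked, dualHorn_linked,
    unate_linked⟩⟩
  obtain ⟨d, hd⟩ := npPoly_projH hc L hL
  refine ⟨4 * d + 4, fun m hm => ?_⟩
  obtain ⟨W, W', hW, hW', hx⟩ := hd m hm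
  refine ⟨buildG 0 W, buildG 0 W', orcW W, orcW W', buildG_isProj W 0, buildG_isProj W' 0,
    ?_, ?_, fun H hH1 hH2 x hxm => ⟨?_, ?_⟩⟩
  · rw [csize_projC]
    exact three_mul_bound m d W.length hm hW
  · rw [csize_projC]
    exact three_mul_bound m d W'.length hm hW'
  · rw [outC_projC]
    exact (hx H hH1 hH2 x hxm).1
  · rw [outC_projC]
    exact (hx H hH1 hH2 x hxm).2

end Pool.Agent.Results.MP_65a708_lc.HornUnion
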