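import Pool.Agent.Lib.P65K.Final
import Pool.Agent.Lib.P65K.Circ

/-!
# MP_65a708_lc: the minimum circuit size problem for circuits MOD_p of ANDs is NP-hard

For a field `K`, `ModAndMCSP K` is the minimum circuit size problem for circuits of depth 2
whose top gate tests whether a linear combination over `K` of ANDs of literals is not zero; the
size is the number of ANDs and the whole truth table is given. For `K = F_p` these are the
circuits MOD_p of ANDs; for `K = F_2`, XORs of ANDs. Every language in NP/poly reduces to it by
circuits of polynomial size that consist of input gates, constants, NOT gates and one oracle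
gate (the last gate); the circuits are the same for all fields.
-/

namespace Pool.Agent.Results.MP_65a708_lc.ModOfAnds

open P65

/-- Every language `L` in NP/poly has a family of circuits of polynomial size that consist of
input gates, constants, NOT gates and one final oracle gate, and decide `L` if the oracle is
`ModAndMCSP K`, for any field `K`. -/
theorem result (L : Set (List Bool)) (hL : NPpoly L) :
    ∃ d : ℕ, ∀ m, 1 ≤ m → ∃ (P : List Gate) (as : List ℕ), (∀ g ∈ P, g.IsProj) ∧
      csize (P ++ [Gate.orc as]) ≤ m ^ d + d ∧
      ∀ (K : Type) [Field K] (x : List Bool), x.length = m →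
        (outC (ModAndMCSP K) x (P ++ [Gate.orc as]) = true ↔ x ∈ L) := by
  obtain ⟨d, hd⟩ := npPoly_projK L hL
  refine ⟨4 * d + 4, fun m hm => ?_⟩
  obtain ⟨W, hW, hx⟩ := hd m hm
  refine ⟨buildG 0 W, orcW W, buildG_isProj W 0, ?_, fun K _ x hxm => ?_⟩
  · rw [csize_projC]
    exact three_mul_bound m d W.length hm hW
  · rw [outC_projC]
    exact hx K x hxm

end Pool.Agent.Results.MP_65a708_lc.ModOfAnds
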