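import Pool.Agent.Lib.P65T.Final
import Pool.Agent.Lib.P65T.Thr
import Pool.Agent.Lib.P65K.Circ

/-!
# MP_65a708_lc: minimum circuit size for OR / AND of threshold gates is NP-hard

`OrMCSP H` (`AndMCSP H`) is the minimum circuit size problem for circuits of depth 2 whose top
gate is an OR (an AND) and whose other gates are arbitrary functions of the class `H`; the size is
the number of gates of the class `H`, and the whole truth table is given. Every language in
NP/poly reduces to it by circuits of polynomial size that consist of input gates, constants, NOT
gates and one oracle gate (the last gate), and the same circuits serve all classes `H` between the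
star functions (their negations) and the unate functions. Threshold gates with real weights, and
threshold gates with integer weights of absolute value at most 2, are such classes. An AND of
threshold gates is a system of linear inequalities, so the least number of linear inequalities
whose 0/1 solutions are a given set of 0/1 vectors (truth table) is hard to compute.
-/

namespace Pool.Agent.Results.MP_65a708_lc.ThresholdGates

open P65 P65T

/-- Every language `L` in NP/poly has two families of circuits of polynomial size that consist of
input gates, constants, NOT gates and one final oracle gate, and decide `L` if the oracle is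
`OrMCSP H` (`AndMCSP H`), for any class `H` of unate functions that contains all star functions
(all negations of star functions). The threshold gates, and the threshold gates with integer
weights of absolute value at most 2, are classes with all these properties. -/
theorem result :
    (∀ L : Set (List Bool), NPpoly L →
      ∃ d : ℕ, ∀ m, 1 ≤ m → ∃ (P P' : List Gate) (as as' : List ℕ),
        (∀ g ∈ P, g.IsProj) ∧ (∀ g ∈ P', g.IsProj) ∧
        csize (P ++ [Gate.orc as]) ≤ m ^ d + d ∧ csize (P' ++ [Gate.orc as']) ≤ m ^ d + d ∧
        ∀ H : ∀ n : ℕ, ((Fin n → Bool) → Bool) → Prop, (∀ n g, H n g → IsUnate g) →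
          ((∀ n g, IsStar g → H n g) → ∀ x : List Bool, x.length = m →
            (outC (OrMCSP H) x (P ++ [Gate.orc as]) = true ↔ x ∈ L)) ∧
          ((∀ n g, IsStar g → H n (bnot g)) → ∀ x : List Bool, x.length = m →
            (outC (AndMCSP H) x (P' ++ [Gate.orc as']) = true ↔ x ∈ L))) ∧
    (∀ (n : ℕ) (g : (Fin n → Bool) → Bool),
      (IsThr2 g → IsThr g) ∧ (IsThr g → IsUnate g) ∧
      (IsStar g → IsThr2 g ∧ IsThr2 (bnot g))) := by
  refine ⟨fun L hL => ?_, fun n g => ⟨thr_of_thr2, thr_unate, fun h =>
    ⟨star_thr2 h, star_thr2_bnot h⟩⟩⟩
  obtain ⟨d, hd⟩ := npPoly_projT L hL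
  refine ⟨4 * d + 4, fun m hm => ?_⟩
  obtain ⟨W, W', hW, hW', hx⟩ := hd m hm
  refine ⟨buildG 0 W, buildG 0 W', orcW W, orcW W', buildG_isProj W 0, buildG_isProj W' 0,
    ?_, ?_, fun H hu => ⟨fun hs x hxm => ?_, fun hs x hxm => ?_⟩⟩
  · rw [csize_projC]
    exact three_mul_bound m d W.length hm hW
  · rw [csize_projC]
    exact three_mul_bound m d W'.length hm hW'
  · rw [outC_projC]
    exact (hx H hu).1 hs x hxm
  · rw [outC_projC]
    exact (hx H hu).2 hs x hxm

end Pool.Agent.Results.MP_65a708_lc.ThresholdGates
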